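import Pool.Agent.Y262.EL.Stm

/-!
# The logarithmic kernel and its regularisations
-/

set_option autoImplicit false

open Set Filter Topology MeasureTheory
open scoped ContDiff ComplexConjugate Real

noncomputable section

namespace Pool.Agent.Y168.EL

open Pool.Agent.Y262.EG Pool.Agent.Y262.EX Pool.Agent.Y262.EL

/-- the logarithmic kernel -/
def L (t : ℂ) : ℝ := Real.log ‖t‖

/-- its gradient -/
def D (t : ℂ) : ℂ →L[ℝ] ℝ := (‖t‖ ^ 2)⁻¹ • innerSL ℝ t

/-- regularised kernel -/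
def le (e : ℝ) (t : ℂ) : ℝ := (1 / 2) * Real.log (‖t‖ ^ 2 + e ^ 2)

/-- its gradient -/
def De (e : ℝ) (t : ℂ) : ℂ →L[ℝ] ℝ := (‖t‖ ^ 2 + e ^ 2)⁻¹ • innerSL ℝ t

theorem locInt {F : Type} [NormedAddCommGroup F] {K : ℂ → F}
    (h : ∀ R : ℝ, IntegrableOn K (Metric.ball 0 R)) : LocallyIntegrable K volume := fun x =>
  ⟨Metric.ball 0 (‖x‖ + 1), Metric.isOpen_ball.mem_nhds (by
    rw [mem_ball_zero_iff]
    linarith), h _⟩

theorem L_loc (h : StLog) : LocallyIntegrable L volume := locInt fun R => (h.1 R).2.1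

theorem norm_D (t : ℂ) : ‖D t‖ = ‖t‖⁻¹ := by
  rw [D, norm_smul, innerSL_apply_norm, norm_inv, norm_pow, norm_norm]
  rcases eq_or_ne t 0 with rfl | ht
  · simp
  · have : ‖t‖ ≠ 0 := norm_ne_zero_iff.2 ht
    field_simp

theorem meas_D : AEStronglyMeasurable D volume := by
  unfold D
  exact ((continuous_norm.pow 2).measurable.inv.aestronglyMeasurable).smul
    (innerSL ℝ).continuous.aestronglyMeasurable

theorem D_int (h : StLog) (R : ℝ) : IntegrableOn D (Metric.ball 0 R) :=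
  Integrable.mono' (h.1 R).2.2 meas_D.restrict (Eventually.of_forall fun t => (norm_D t).le)

theorem D_loc (h : StLog) : LocallyIntegrable D volume := locInt fun R => D_int h R

theorem le_cont {e : ℝ} (he : 0 < e) : Continuous (le e) := by
  unfold le
  refine continuous_const.mul (Continuous.log (by fun_prop) fun t => ?_)
  positivity

theorem De_cont {e : ℝ} (he : 0 < e) : Continuous (De e) := by
  unfold De
  have h1 : Continuous fun t : ℂ => ‖t‖ ^ 2 + e ^ 2 := (continuous_norm.pow 2).add continuous_const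
  exact (h1.inv₀ fun t => by positivity).smul (innerSL ℝ).continuous

theorem le_deriv {e : ℝ} (he : 0 < e) (t : ℂ) : HasFDerivAt (le e) (De e t) t := by
  have h1 : HasFDerivAt (fun t : ℂ => ‖t‖ ^ 2 + e ^ 2) (2 • innerSL ℝ t) t :=
    (hasStrictFDerivAt_norm_sq t).hasFDerivAt.add_const _
  have h0 : ‖t‖ ^ 2 + e ^ 2 ≠ 0 := by positivity
  have h2 := (h1.log h0).const_mul (1 / 2 : ℝ)
  unfold le
  refine h2.congr_fderiv ?_
  rw [De]
  ext v
  all_goals
    simp
    ring

theorem norm_De {e : ℝ} (he : 0 < e) (t : ℂ) : ‖De e t‖ ≤ e⁻¹ := by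
  rw [De, norm_smul, innerSL_apply_norm, norm_inv, Real.norm_eq_abs,
    abs_of_nonneg (by positivity), inv_mul_le_iff₀ (by positivity)]
  rw [← div_eq_mul_inv, le_div_iff₀ he]
  nlinarith [sq_nonneg (‖t‖ - e), norm_nonneg t, sq_nonneg ‖t‖, sq_nonneg e]

/-- the sequence of parameters -/
def en (n : ℕ) : ℝ := 1 / ((n : ℝ) + 1)

theorem en_pos (n : ℕ) : 0 < en n := by
  unfold en
  positivity

theorem en_le (n : ℕ) : en n ≤ 1 := by
  unfold en
  rw [div_le_one (by positivity)]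
  linarith [Nat.cast_nonneg (α := ℝ) n]

theorem en_lim : Tendsto en atTop (𝓝 0) := tendsto_one_div_add_atTop_nhds_zero_nat

/-- the two kernels are close -/
theorem le_sub (n : ℕ) {t : ℂ} (ht : t ≠ 0) : ‖le (en n) t - L t‖ ≤ ‖t‖ ^ 2 + |L t| := by
  have he := en_pos n
  have he1 := en_le n
  have h1 : le (en n) t ≤ ‖t‖ ^ 2 / 2 := by
    unfold le
    have h2 : Real.log (‖t‖ ^ 2 + en n ^ 2) ≤ ‖t‖ ^ 2 + en n ^ 2 - 1 :=
      Real.log_le_sub_one_of_pos (by positivity)
    nlinarith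
  have h2 : L t ≤ le (en n) t := by
    unfold L le
    have hp : 0 < ‖t‖ := norm_pos_iff.2 ht
    have h3 : Real.log (‖t‖ ^ 2) ≤ Real.log (‖t‖ ^ 2 + en n ^ 2) :=
      Real.log_le_log (by positivity) (by nlinarith [sq_nonneg (en n)])
    rw [Real.log_pow] at h3
    push_cast at h3
    linarith
  rw [Real.norm_eq_abs, abs_of_nonneg (by linarith)]
  have := neg_abs_le (L t)
  nlinarith [sq_nonneg ‖t‖]

theorem le_tendsto {t : ℂ} (ht : t ≠ 0) : Tendsto (fun n => le (en n) t) atTop (𝓝 (L t)) := by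
  have hp : 0 < ‖t‖ := norm_pos_iff.2 ht
  have h1 : Tendsto (fun n => ‖t‖ ^ 2 + en n ^ 2) atTop (𝓝 (‖t‖ ^ 2 + 0 ^ 2)) :=
    tendsto_const_nhds.add (en_lim.pow 2)
  have h2 := (h1.log (by positivity)).const_mul (1 / 2 : ℝ)
  have h3 : (1 / 2 : ℝ) * Real.log (‖t‖ ^ 2 + 0 ^ 2) = L t := by
    rw [L, zero_pow two_ne_zero, add_zero, Real.log_pow]
    push_cast
    ring
  rw [h3] at h2
  exact h2

theorem De_sub (n : ℕ) (t : ℂ) : ‖De (en n) t - D t‖ ≤ 2 * ‖t‖⁻¹ := by
  have h1 : ‖De (en n) t‖ ≤ ‖t‖⁻¹ := by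
    rcases eq_or_ne t 0 with rfl | ht
    · simp [De]
    · have hp : 0 < ‖t‖ := norm_pos_iff.2 ht
      rw [De, norm_smul, innerSL_apply_norm, norm_inv, Real.norm_eq_abs,
        abs_of_nonneg (by positivity), inv_mul_le_iff₀ (by positivity), ← div_eq_mul_inv,
        le_div_iff₀ hp]
      nlinarith [sq_nonneg (en n)]
  calc ‖De (en n) t - D t‖ ≤ ‖De (en n) t‖ + ‖D t‖ := norm_sub_le _ _
    _ ≤ ‖t‖⁻¹ + ‖t‖⁻¹ := add_le_add h1 (norm_D t).le
    _ = _ := by ring

theorem De_tendsto (t : ℂ) : Tendsto (fun n => De (en n) t) atTop (𝓝 (D t)) := by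
  rcases eq_or_ne t 0 with rfl | ht
  · have h1 : ∀ n, De (en n) 0 = 0 := fun n => by simp [De]
    have h2 : D 0 = 0 := by simp [D]
    simp only [h1, h2]
    exact tendsto_const_nhds
  · have hp : 0 < ‖t‖ := norm_pos_iff.2 ht
    have h1 : Tendsto (fun n => ‖t‖ ^ 2 + en n ^ 2) atTop (𝓝 (‖t‖ ^ 2 + 0 ^ 2)) :=
      tendsto_const_nhds.add (en_lim.pow 2)
    have h2 := (h1.inv₀ (by positivity)).smul_const (innerSL ℝ t)
    rw [zero_pow two_ne_zero, add_zero] at h2
    exact h2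

theorem pw_int (R : ℝ) (k : ℕ) : IntegrableOn (fun t : ℂ => ‖t‖ ^ k) (Metric.ball 0 R) :=
  ((continuous_norm.pow k).continuousOn.integrableOn_compact
    (isCompact_closedBall (0 : ℂ) R)).mono_set Metric.ball_subset_closedBall

theorem ae_ne : ∀ᵐ t : ℂ ∂volume, t ≠ 0 := by
  have : (volume : Measure ℂ) {0} = 0 := measure_singleton 0
  exact measure_eq_zero_iff_ae_notMem.1 this

theorem lim_L (h : StLog) (R : ℝ) :
    Tendsto (fun n => ∫ t in Metric.ball 0 R, ‖le (en n) t - L t‖) atTop (𝓝 0) := by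
  have h1 : Tendsto (fun n => ∫ t in Metric.ball 0 R, ‖le (en n) t - L t‖) atTop
      (𝓝 (∫ t in Metric.ball (0 : ℂ) R, (0 : ℝ))) := by
    have hb : IntegrableOn (fun t : ℂ => ‖t‖ ^ 2 + |L t|) (Metric.ball 0 R) := by
      refine Integrable.add (pw_int R 2) ?_
      exact (h.1 R).2.1.abs
    refine tendsto_integral_of_dominated_convergence (fun t => ‖t‖ ^ 2 + |L t|)
      (fun n => ?_) hb (fun n => ?_) ?_
    · exact (((le_cont (en_pos n)).aestronglyMeasurable.restrict).sub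
        (h.1 R).2.1.aestronglyMeasurable).norm
    · refine ae_restrict_of_ae ?_
      filter_upwards [ae_ne] with t ht
      rw [norm_norm]
      exact le_sub n ht
    · refine ae_restrict_of_ae ?_
      filter_upwards [ae_ne] with t ht
      have h2 := ((le_tendsto ht).sub_const (L t)).norm
      rw [sub_self, norm_zero] at h2
      exact h2
  rwa [integral_zero] at h1

theorem lim_L2 (h : StLog) (R : ℝ) :
    Tendsto (fun n => ∫ t in Metric.ball 0 R, (le (en n) t - L t) ^ 2) atTop (𝓝 0) := by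
  have h1 : Tendsto (fun n => ∫ t in Metric.ball 0 R, (le (en n) t - L t) ^ 2) atTop
      (𝓝 (∫ t in Metric.ball (0 : ℂ) R, (0 : ℝ))) := by
    refine tendsto_integral_of_dominated_convergence (fun t => 2 * ‖t‖ ^ 4 + 2 * (L t) ^ 2)
      (fun n => ?_) (((pw_int R 4).const_mul 2).add ((h.1 R).1.const_mul 2)) (fun n => ?_) ?_
    · exact (((le_cont (en_pos n)).aestronglyMeasurable.restrict).sub
        (h.1 R).2.1.aestronglyMeasurable).pow 2
    · refine ae_restrict_of_ae ?_
      filter_upwards [ae_ne] with t ht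
      have h2 := le_sub n ht
      have h3 : ‖(le (en n) t - L t) ^ 2‖ ≤ (‖t‖ ^ 2 + |L t|) ^ 2 := by
        rw [norm_pow]
        exact pow_le_pow_left₀ (norm_nonneg _) h2 2
      refine h3.trans ?_
      have h4 : |L t| ^ 2 = L t ^ 2 := sq_abs _
      nlinarith [sq_nonneg (‖t‖ ^ 2 - |L t|)]
    · refine ae_restrict_of_ae ?_
      filter_upwards [ae_ne] with t ht
      have h2 := ((le_tendsto ht).sub_const (L t)).pow 2
      rw [sub_self, zero_pow two_ne_zero] at h2
      exact h2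
  rwa [integral_zero] at h1

theorem lim_D (h : StLog) (R : ℝ) :
    Tendsto (fun n => ∫ t in Metric.ball 0 R, ‖De (en n) t - D t‖) atTop (𝓝 0) := by
  have h1 : Tendsto (fun n => ∫ t in Metric.ball 0 R, ‖De (en n) t - D t‖) atTop
      (𝓝 (∫ t in Metric.ball (0 : ℂ) R, (0 : ℝ))) := by
    refine tendsto_integral_of_dominated_convergence (fun t => 2 * ‖t‖⁻¹)
      (fun n => ?_) ((h.1 R).2.2.const_mul 2) (fun n => ?_) ?_
    · exact (((De_cont (en_pos n)).aestronglyMeasurable.restrict).sub meas_D.restrict).norm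
    · exact Eventually.of_forall fun t => by
        rw [norm_norm]
        exact De_sub n t
    · refine Eventually.of_forall fun t => ?_
      have h2 := ((De_tendsto t).sub_const (D t)).norm
      rw [sub_self, norm_zero] at h2
      exact h2
  rwa [integral_zero] at h1

end Pool.Agent.Y168.EL
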