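import Pool.Agent.Y168.EL.Ker

/-!
# Potentials of test functions
-/

set_option autoImplicit false

open Set Filter Topology MeasureTheory
open scoped ContDiff ComplexConjugate Real Convolution

noncomputable section

namespace Pool.Agent.Y168.EL

open Pool.Agent.Y262.EG Pool.Agent.Y262.EX Pool.Agent.Y262.EL

/-- the convolution form of the potential -/
theorem pot_eq (f : ℂ → ℝ) (z : ℂ) : pot f z = (2 * π)⁻¹ * ∫ t, L t * f (z - t) := by
  rw [pot, ← integral_sub_left_eq_self (fun t => L t * f (z - t)) volume z]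
  simp only [sub_sub_cancel, L]

theorem pot_fun (f : ℂ → ℝ) : pot f = fun z =>
    (2 * π)⁻¹ * (L ⋆[ContinuousLinearMap.mul ℝ ℝ, volume] f) z := by
  funext z
  rw [pot_eq]
  rfl

theorem int_L (h : StLog) {f : ℂ → ℝ} (hf : Continuous f) (hc : HasCompactSupport f) (z : ℂ) :
    Integrable (fun t => L t * f (z - t)) :=
  hc.convolutionExists_right (ContinuousLinearMap.mul ℝ ℝ) (L_loc h) hf z

theorem pot_add (h : StLog) {f g : ℂ → ℝ} (hf : Continuous f) (hcf : HasCompactSupport f)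
    (hg : Continuous g) (hcg : HasCompactSupport g) (z : ℂ) :
    pot f z + pot g z = pot (fun y => f y + g y) z := by
  rw [pot_eq, pot_eq, pot_eq, ← mul_add, ← integral_add (int_L h hf hcf z) (int_L h hg hcg z)]
  simp only [mul_add]

theorem pot_cd (h : StLog) {f : ℂ → ℝ} (n : WithTop ℕ∞) (hn : n ≠ ω) (hf : ContDiff ℝ n f)
    (hc : HasCompactSupport f) : ContDiff ℝ n (pot f) := by
  rw [pot_fun]
  refine contDiff_const.mul ?_
  obtain ⟨m, rfl⟩ : ∃ m : ℕ∞, n = (m : WithTop ℕ∞) := by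
    cases n with
    | top => exact absurd rfl hn
    | coe m => exact ⟨m, rfl⟩
  exact hc.contDiff_convolution_right _ (L_loc h) hf

theorem pot_fderiv (h : StLog) {f : ℂ → ℝ} (hf : ContDiff ℝ 1 f) (hc : HasCompactSupport f)
    (z v : ℂ) : fderiv ℝ (pot f) z v = pot (fun y => fderiv ℝ f y v) z := by
  have h1 := (hc.hasFDerivAt_convolution_right (ContinuousLinearMap.mul ℝ ℝ) (L_loc h) hf
    z).const_mul (2 * π)⁻¹
  rw [pot_fun, h1.fderiv, pot_fun]
  rw [smul_apply, convolution_precompR_apply _ (L_loc h) (hc.fderiv ℝ)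
    (hf.continuous_fderiv one_ne_zero), smul_eq_mul]

theorem tf_px {f : ℂ → ℝ} (hf : ContDiff ℝ ∞ f) (hc : HasCompactSupport f) (v : ℂ) :
    ContDiff ℝ ∞ (fun y => fderiv ℝ f y v) ∧ HasCompactSupport (fun y => fderiv ℝ f y v) := by
  constructor
  · exact (hf.fderiv_right (m := ∞) (by simp)).clm_apply contDiff_const
  · exact hc.fderiv_apply ℝ v

theorem pot1 : StLog → StPot1 := by
  intro h ψ hψ
  obtain ⟨hs, hc, -⟩ := hψ
  have h1 : ContDiff ℝ 1 ψ := hs.of_le (by norm_cast)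
  refine ⟨pot_cd h ∞ (by simp) hs hc, fun z => ?_⟩
  have hx : px (pot ψ) = pot (px ψ) := funext fun z => pot_fderiv h h1 hc z 1
  have hy : py (pot ψ) = pot (py ψ) := funext fun z => pot_fderiv h h1 hc z Complex.I
  obtain ⟨hx1, hx2⟩ := tf_px hs hc 1
  obtain ⟨hy1, hy2⟩ := tf_px hs hc Complex.I
  obtain ⟨hxx1, hxx2⟩ := tf_px hx1 hx2 1
  obtain ⟨hyy1, hyy2⟩ := tf_px hy1 hy2 Complex.I
  have hx3 : px (pot (px ψ)) z = pot (px (px ψ)) z :=
    pot_fderiv h (hx1.of_le (by norm_cast)) hx2 z 1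
  have hy3 : py (pot (py ψ)) z = pot (py (py ψ)) z :=
    pot_fderiv h (hy1.of_le (by norm_cast)) hy2 z Complex.I
  rw [lap, hx, hy, hx3, hy3]
  have h4 := pot_add h (f := px (px ψ)) (g := py (py ψ)) hxx1.continuous hxx2 hyy1.continuous
    hyy2 z
  rw [h4]
  have h5 := h.2 ψ ⟨hs, hc, subset_univ _⟩ z
  have h6 : pot (fun y => px (px ψ) y + py (py ψ) y) z = (2 * π)⁻¹ * (2 * π * ψ z) := by
    rw [← h5]
    rfl
  rw [h6]
  have : π ≠ 0 := Real.pi_ne_zero
  field_simp

end Pool.Agent.Y168.EL
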