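import Pool.Agent.Y168.EL.Ker

/-!
# Potentials of square integrable functions are continuous
-/

set_option autoImplicit false

open Set Filter Topology MeasureTheory
open scoped ContDiff ComplexConjugate Real Convolution

noncomputable section

namespace Pool.Agent.Y168.EL

open Pool.Agent.Y262.EG Pool.Agent.Y262.EX Pool.Agent.Y262.EL

theorem pot2 : StLog → StPot2 := by
  intro h f hf hc
  -- the support
  obtain ⟨R, hR⟩ : ∃ R : ℝ, ∀ y, R < ‖y‖ → f y = 0 := by
    obtain ⟨R, hR⟩ := hc.isCompact.isBounded.subset_closedBall 0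
    refine ⟨R, fun y hy => ?_⟩
    by_contra hne
    have := hR (subset_tsupport f hne)
    rw [mem_closedBall_zero_iff] at this
    linarith
  have hf2 : Integrable (fun y => f y ^ 2) := hf.integrable_sq
  have hf1 : Integrable f := by
    have h1 : IntegrableOn f (Metric.closedBall 0 R) := by
      have : IsFiniteMeasure ((volume : Measure ℂ).restrict (Metric.closedBall 0 R)) :=
        ⟨by
          rw [Measure.restrict_apply_univ]
          exact (isCompact_closedBall (0 : ℂ) R).measure_lt_top⟩
      exact (hf.restrict _).integrable (by norm_num)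
    refine (integrableOn_iff_integrable_of_support_subset ?_).1 h1
    intro y hy
    by_contra hne
    rw [mem_closedBall_zero_iff, not_le] at hne
    exact hy (hR y hne)
  obtain ⟨P, hP⟩ : ∃ P : ℂ → ℝ, ∀ z, P z = ∫ y, L (z - y) * f y := ⟨_, fun _ => rfl⟩
  obtain ⟨Pn, hPn⟩ : ∃ Pn : ℕ → ℂ → ℝ, ∀ n z, Pn n z = ∫ y, le (en n) (z - y) * f y :=
    ⟨_, fun _ _ => rfl⟩
  have hpot : pot f = fun z => (2 * π)⁻¹ * P z := by
    funext z
    rw [hP]
    rfl
  rw [hpot]
  refine continuous_const.mul (continuous_iff_continuousAt.2 fun z0 => ?_)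
  -- the approximations are continuous
  have hPc : ∀ n, ContinuousAt (Pn n) z0 := by
    intro n
    obtain ⟨C, hC⟩ := (isCompact_closedBall (0 : ℂ) (‖z0‖ + 1 + R)).exists_bound_of_continuousOn
      (le_cont (en_pos n)).continuousOn
    have h1 : Pn n = fun z => ∫ y, le (en n) (z - y) * f y := funext fun z => hPn n z
    rw [h1]
    refine continuousAt_of_dominated (bound := fun y => C * ‖f y‖) ?_ ?_ (hf1.norm.const_mul C) ?_
    · exact Eventually.of_forall fun z =>
        ((le_cont (en_pos n)).comp (continuous_const.sub continuous_id)).aestronglyMeasurable.mul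
          hf1.aestronglyMeasurable
    · filter_upwards [Metric.ball_mem_nhds z0 one_pos] with z hz
      refine Eventually.of_forall fun y => ?_
      rw [norm_mul]
      by_cases hy : R < ‖y‖
      · rw [hR y hy, norm_zero, mul_zero, mul_zero]
      · refine mul_le_mul_of_nonneg_right (hC _ ?_) (norm_nonneg _)
        rw [mem_closedBall_zero_iff]
        have h2 : ‖z‖ ≤ ‖z0‖ + 1 := by
          have := norm_sub_norm_le z z0
          rw [mem_ball_iff_norm] at hz
          linarith
        have := norm_sub_le z y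
        linarith
    · exact Eventually.of_forall fun y =>
        (((le_cont (en_pos n)).comp (continuous_id.sub continuous_const)).mul
          continuous_const).continuousAt
  -- the estimate
  obtain ⟨ρ, hρ⟩ : ∃ ρ : ℝ, ρ = ‖z0‖ + 1 + R + 1 := ⟨_, rfl⟩
  obtain ⟨q, hq⟩ : ∃ q : ℕ → ℂ → ℝ, ∀ n, q n = (Metric.ball (0 : ℂ) ρ).indicator
    (fun t => (le (en n) t - L t) ^ 2) := ⟨_, fun _ => rfl⟩
  have hqi : ∀ n, Integrable (q n) := by
    intro n
    rw [hq, integrable_indicator_iff Metric.isOpen_ball.measurableSet]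
    have hb : IntegrableOn (fun t => 2 * (le (en n) t) ^ 2 + 2 * (L t) ^ 2) (Metric.ball 0 ρ) := by
      refine Integrable.add ?_ ((h.1 ρ).1.const_mul 2)
      refine Integrable.const_mul ?_ 2
      exact (((le_cont (en_pos n)).pow 2).continuousOn.integrableOn_compact
        (isCompact_closedBall (0 : ℂ) ρ)).mono_set Metric.ball_subset_closedBall
    refine Integrable.mono' hb ?_ (Eventually.of_forall fun t => ?_)
    · exact (((le_cont (en_pos n)).aestronglyMeasurable.restrict).sub
        (h.1 ρ).2.1.aestronglyMeasurable).pow 2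
    · rw [Real.norm_eq_abs, abs_of_nonneg (sq_nonneg _)]
      nlinarith [sq_nonneg (le (en n) t + L t)]
  have hq0 : ∀ n t, 0 ≤ q n t := by
    intro n t
    rw [hq]
    exact Set.indicator_nonneg (fun t _ => sq_nonneg _) t
  obtain ⟨q', hq'⟩ : ∃ q' : ℂ → ℝ, q' = (Metric.ball (0 : ℂ) ρ).indicator
    (fun t => (L t) ^ 2) := ⟨_, rfl⟩
  have hqi' : Integrable q' := by
    rw [hq', integrable_indicator_iff Metric.isOpen_ball.measurableSet]
    exact (h.1 ρ).1
  have hLm : ∀ z : ℂ, AEStronglyMeasurable (fun y => L (z - y)) volume := by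
    intro z
    have : Measurable fun y : ℂ => Real.log ‖z - y‖ :=
      Real.measurable_log.comp (measurable_const.sub measurable_id).norm
    exact this.aestronglyMeasurable
  have hmem : ∀ z ∈ Metric.ball z0 1, ∀ y, ¬ R < ‖y‖ → z - y ∈ Metric.ball (0 : ℂ) ρ := by
    intro z hz y hy
    rw [mem_ball_zero_iff, hρ]
    have h2 : ‖z‖ ≤ ‖z0‖ + 1 := by
      have := norm_sub_norm_le z z0
      rw [mem_ball_iff_norm] at hz
      linarith
    have := norm_sub_le z y
    linarith
  have hLi : ∀ z ∈ Metric.ball z0 1, Integrable fun y => L (z - y) * f y := by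
    intro z hz
    refine Integrable.mono' ((hqi'.comp_sub_left z).add hf2)
      ((hLm z).mul hf1.aestronglyMeasurable) (Eventually.of_forall fun y => ?_)
    by_cases hy : R < ‖y‖
    · rw [hR y hy, mul_zero, norm_zero]
      refine add_nonneg ?_ (sq_nonneg _)
      rw [hq']
      exact Set.indicator_nonneg (fun t _ => sq_nonneg _) _
    · have h3 : q' (z - y) = L (z - y) ^ 2 := by
        rw [hq', Set.indicator_of_mem (hmem z hz y hy)]
      show ‖L (z - y) * f y‖ ≤ q' (z - y) + f y ^ 2
      rw [h3, norm_mul, Real.norm_eq_abs, Real.norm_eq_abs]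
      have h4 := sq_abs (L (z - y))
      have h5 := sq_abs (f y)
      nlinarith [sq_nonneg (|L (z - y)| - |f y|), sq_nonneg (|L (z - y)| + |f y|),
        abs_nonneg (L (z - y)), abs_nonneg (f y)]
  have hle : ∀ n, ∀ z ∈ Metric.ball z0 1, Integrable fun y => le (en n) (z - y) * f y := by
    intro n z hz
    have hd : Integrable fun y => (le (en n) (z - y) - L (z - y)) * f y := by
      refine Integrable.mono' (((hqi n).comp_sub_left z).add hf2)
        ((((le_cont (en_pos n)).comp (continuous_const.sub continuous_id)).aestronglyMeasurable.sub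
          (hLm z)).mul hf1.aestronglyMeasurable) (Eventually.of_forall fun y => ?_)
      by_cases hy : R < ‖y‖
      · rw [hR y hy, mul_zero, norm_zero]
        exact add_nonneg (hq0 _ _) (sq_nonneg _)
      · have h3 : q n (z - y) = (le (en n) (z - y) - L (z - y)) ^ 2 := by
          rw [hq, Set.indicator_of_mem (hmem z hz y hy)]
        show ‖(le (en n) (z - y) - L (z - y)) * f y‖ ≤ q n (z - y) + f y ^ 2
        rw [h3, norm_mul, Real.norm_eq_abs, Real.norm_eq_abs]
        have h4 := sq_abs (le (en n) (z - y) - L (z - y))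
        have h5 := sq_abs (f y)
        nlinarith [sq_nonneg (|le (en n) (z - y) - L (z - y)| - |f y|),
          abs_nonneg (le (en n) (z - y) - L (z - y)), abs_nonneg (f y)]
    have := hd.add (hLi z hz)
    refine this.congr (Eventually.of_forall fun y => ?_)
    show (le (en n) (z - y) - L (z - y)) * f y + L (z - y) * f y = le (en n) (z - y) * f y
    ring
  have hest : ∀ n, ∀ z ∈ Metric.ball z0 1, ∀ lam : ℝ, 0 < lam →
      |P z - Pn n z| ≤ lam / 2 * (∫ t in Metric.ball 0 ρ, (le (en n) t - L t) ^ 2) +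
        1 / (2 * lam) * ∫ y, f y ^ 2 := by
    intro n z hz lam hlam
    rw [hP, hPn, ← integral_sub (hLi z hz) (hle n z hz), ← Real.norm_eq_abs]
    have h6 : ∫ t in Metric.ball (0 : ℂ) ρ, (le (en n) t - L t) ^ 2 = ∫ y, q n (z - y) := by
      rw [integral_sub_left_eq_self (q n) volume z, hq,
        integral_indicator Metric.isOpen_ball.measurableSet]
    rw [h6, ← integral_const_mul, ← integral_const_mul, ← integral_add
      (((hqi n).comp_sub_left z).const_mul _) (hf2.const_mul _)]
    refine norm_integral_le_of_norm_le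
      ((((hqi n).comp_sub_left z).const_mul _).add (hf2.const_mul _))
      (Eventually.of_forall fun y => ?_)
    show ‖L (z - y) * f y - le (en n) (z - y) * f y‖ ≤
      lam / 2 * q n (z - y) + 1 / (2 * lam) * f y ^ 2
    by_cases hy : R < ‖y‖
    · rw [hR y hy, mul_zero, mul_zero, sub_zero, norm_zero]
      have := hq0 n (z - y)
      positivity
    · have h3 : q n (z - y) = (le (en n) (z - y) - L (z - y)) ^ 2 := by
        rw [hq, Set.indicator_of_mem (hmem z hz y hy)]
      rw [h3, ← sub_mul, norm_mul, Real.norm_eq_abs, Real.norm_eq_abs, abs_sub_comm]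
      obtain ⟨a, ha⟩ : ∃ a, a = |le (en n) (z - y) - L (z - y)| := ⟨_, rfl⟩
      have h4 : a ^ 2 = (le (en n) (z - y) - L (z - y)) ^ 2 := by
        rw [ha, sq_abs]
      have h5 := sq_abs (f y)
      rw [← h4, ← h5, ← ha]
      obtain ⟨b, hb⟩ : ∃ b, b = |f y| := ⟨_, rfl⟩
      rw [← hb]
      have h7 : lam / 2 * a ^ 2 + 1 / (2 * lam) * b ^ 2 - a * b =
          (lam * a - b) ^ 2 / (2 * lam) := by
        field_simp
        ring
      have h8 : 0 ≤ (lam * a - b) ^ 2 / (2 * lam) := by positivity
      linarith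
  refine continuousAt_of_locally_uniform_approx_of_continuousAt fun u hu => ?_
  obtain ⟨ε, hε, hεu⟩ := Metric.mem_uniformity_dist.1 hu
  have hF0 : 0 ≤ ∫ y, f y ^ 2 := integral_nonneg fun _ => sq_nonneg _
  obtain ⟨F, hF⟩ : ∃ F, F = ∫ y, f y ^ 2 := ⟨_, rfl⟩
  rw [← hF] at hF0
  obtain ⟨lam, hlam⟩ : ∃ lam : ℝ, lam = (F + 1) / ε := ⟨_, rfl⟩
  have hlam0 : 0 < lam := by rw [hlam]; positivity
  have h9 : 1 / (2 * lam) * F ≤ ε / 2 := by
    rw [hlam]
    have : 1 / (2 * ((F + 1) / ε)) * F = ε / 2 * (F / (F + 1)) := by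
      field_simp
    rw [this]
    have h10 : F / (F + 1) ≤ 1 := by
      rw [div_le_one (by positivity)]
      linarith
    nlinarith
  have h11 : ∀ᶠ n in atTop, ∫ t in Metric.ball (0 : ℂ) ρ, (le (en n) t - L t) ^ 2 < ε / lam :=
    (lim_L2 h ρ).eventually (gt_mem_nhds (by positivity))
  obtain ⟨n, hn⟩ := h11.exists
  refine ⟨Metric.ball z0 1, Metric.ball_mem_nhds z0 one_pos, Pn n, hPc n, fun z hz => hεu ?_⟩
  rw [Real.dist_eq]
  refine (hest n z hz lam hlam0).trans_lt ?_
  rw [← hF]
  have h12 : lam / 2 * (∫ t in Metric.ball (0 : ℂ) ρ, (le (en n) t - L t) ^ 2) < ε / 2 := by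
    have : lam / 2 * (ε / lam) = ε / 2 := by field_simp
    rw [← this]
    exact mul_lt_mul_of_pos_left hn (by positivity)
  linarith

end Pool.Agent.Y168.EL
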