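import Pool.Agent.Y168.EL.Pot1

/-!
# Potentials gain a derivative
-/

set_option autoImplicit false

open Set Filter Topology MeasureTheory
open scoped ContDiff ComplexConjugate Real Convolution

noncomputable section

namespace Pool.Agent.Y168.EL

open Pool.Agent.Y262.EG Pool.Agent.Y262.EX Pool.Agent.Y262.EL

theorem int_cc {F : Type} [NormedAddCommGroup F] [NormedSpace ℝ F] {K : ℂ → F}
    (hK : LocallyIntegrable K volume) {f : ℂ → ℝ} (hf : Continuous f) (hc : HasCompactSupport f)
    (z : ℂ) : Integrable (fun t => f (z - t) • K t) :=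
  hK.integrable_smul_left_of_hasCompactSupport (hf.comp (continuous_const.sub continuous_id))
    (hc.comp_homeomorph (Homeomorph.subLeft z))

/-- bound for potentials with vector valued kernels -/
theorem cc_bound {F : Type} [NormedAddCommGroup F] [NormedSpace ℝ F] {K : ℂ → F}
    (hK : ∀ R : ℝ, IntegrableOn K (Metric.ball 0 R)) {f : ℂ → ℝ} {M R : ℝ} (hM : ∀ y, ‖f y‖ ≤ M)
    (hR : ∀ y, R < ‖y‖ → f y = 0) {N : ℝ} {z : ℂ} (hz : ‖z‖ ≤ N) :
    ‖∫ t, f (z - t) • K t‖ ≤ M * ∫ t in Metric.ball 0 (N + R + 1), ‖K t‖ := by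
  have hM0 : 0 ≤ M := (norm_nonneg _).trans (hM 0)
  rw [← integral_const_mul, ← integral_indicator Metric.isOpen_ball.measurableSet]
  refine norm_integral_le_of_norm_le
    ((integrable_indicator_iff Metric.isOpen_ball.measurableSet).2 ((hK _).norm.const_mul M))
    (Eventually.of_forall fun t => ?_)
  by_cases ht : t ∈ Metric.ball (0 : ℂ) (N + R + 1)
  · rw [Set.indicator_of_mem ht, norm_smul]
    exact mul_le_mul_of_nonneg_right (hM _) (norm_nonneg _)
  · rw [Set.indicator_of_notMem ht]
    have h1 : R < ‖z - t‖ := by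
      rw [mem_ball_zero_iff, not_lt] at ht
      have := norm_sub_norm_le t z
      rw [norm_sub_rev] at this
      linarith
    rw [hR _ h1, zero_smul, norm_zero]

theorem pot3 : StLog → StPot3 := by
  intro h k f hf hc
  have hfc := hf.continuous
  obtain ⟨R, hR⟩ : ∃ R : ℝ, ∀ y, R < ‖y‖ → f y = 0 := by
    obtain ⟨R, hR⟩ := hc.isCompact.isBounded.subset_closedBall 0
    refine ⟨R, fun y hy => ?_⟩
    by_contra hne
    have := hR (subset_tsupport f hne)
    rw [mem_closedBall_zero_iff] at this
    linarith
  obtain ⟨M, hM⟩ := hfc.bounded_above_of_compact_support hc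
  have hM0 : 0 ≤ M := (norm_nonneg _).trans (hM 0)
  obtain ⟨P, hP⟩ : ∃ P : ℂ → ℝ, ∀ z, P z = ∫ t, f (z - t) • L t := ⟨_, fun _ => rfl⟩
  obtain ⟨G, hG⟩ : ∃ G : ℂ → (ℂ →L[ℝ] ℝ), ∀ z, G z = ∫ t, f (z - t) • D t := ⟨_, fun _ => rfl⟩
  have hpot : pot f = fun z => (2 * π)⁻¹ * P z := by
    funext z
    rw [hP, pot_eq]
    simp only [smul_eq_mul, mul_comm]
  have hGc : ContDiff ℝ k G := by
    have h1 : G = (D ⋆[(ContinuousLinearMap.lsmul ℝ ℝ : ℝ →L[ℝ] (ℂ →L[ℝ] ℝ) →L[ℝ]
        (ℂ →L[ℝ] ℝ)).flip, volume] f) := by
      funext z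
      rw [hG]
      rfl
    rw [h1]
    exact hc.contDiff_convolution_right _ (D_loc h) hf
  have hder : ∀ z, HasFDerivAt P (G z) z := by
    intro z0
    have hz0 : z0 ∈ Metric.ball (0 : ℂ) (‖z0‖ + 1) := by
      rw [mem_ball_zero_iff]
      linarith
    -- the approximations
    have hsub : ∀ {F : Type} [NormedAddCommGroup F] [NormedSpace ℝ F] (K : ℂ → F) (z : ℂ),
        ∫ y, f y • K (z - y) = ∫ t, f (z - t) • K t := by
      intro F _ _ K z
      rw [← integral_sub_left_eq_self (fun t => f (z - t) • K t) volume z]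
      simp only [sub_sub_cancel]
    have hd : ∀ n : ℕ, ∀ z : ℂ, HasFDerivAt (fun z => ∫ y, f y • le (en n) (z - y))
        (∫ y, f y • De (en n) (z - y)) z := by
      intro n z
      refine hasFDerivAt_integral_of_dominated_of_fderiv_le (s := univ)
        (F := fun z y => f y • le (en n) (z - y)) (F' := fun z y => f y • De (en n) (z - y))
        (bound := fun y => ‖f y‖ * (en n)⁻¹) univ_mem ?_ ?_ ?_ ?_ ?_ ?_
      · exact Eventually.of_forall fun z => (hfc.smul ((le_cont (en_pos n)).comp
          (continuous_const.sub continuous_id))).aestronglyMeasurable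
      · exact (hfc.smul ((le_cont (en_pos n)).comp
          (continuous_const.sub continuous_id))).integrable_of_hasCompactSupport hc.smul_right
      · exact (hfc.smul ((De_cont (en_pos n)).comp
          (continuous_const.sub continuous_id))).aestronglyMeasurable
      · refine Eventually.of_forall fun y z _ => ?_
        rw [norm_smul]
        exact mul_le_mul_of_nonneg_left (norm_De (en_pos n) _) (norm_nonneg _)
      · exact ((hfc.integrable_of_hasCompactSupport hc).norm).mul_const _
      · refine Eventually.of_forall fun y z _ => ?_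
        have h1 : HasFDerivAt (fun z : ℂ => z - y) (ContinuousLinearMap.id ℝ ℂ) z :=
          (hasFDerivAt_id z).sub_const y
        have h2 := ((le_deriv (en_pos n) (z - y)).comp z h1).const_smul (f y)
        rw [ContinuousLinearMap.comp_id] at h2
        exact h2
    refine hasFDerivAt_of_tendstoUniformlyOn (l := atTop)
      (f := fun n z => ∫ y, f y • le (en n) (z - y))
      (f' := fun n z => ∫ y, f y • De (en n) (z - y)) Metric.isOpen_ball ?_
      (fun n z _ => hd n z) ?_ hz0
    · rw [Metric.tendstoUniformlyOn_iff]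
      intro ε hε
      have h1 := (lim_D h (‖z0‖ + 1 + R + 1)).const_mul M
      rw [mul_zero] at h1
      filter_upwards [h1.eventually (gt_mem_nhds hε)] with n hn z hz
      rw [mem_ball_zero_iff] at hz
      refine lt_of_le_of_lt ?_ hn
      rw [dist_eq_norm, norm_sub_rev, hsub, hG,
        ← integral_sub (int_cc (De_cont (en_pos n)).locallyIntegrable hfc hc z)
          (int_cc (D_loc h) hfc hc z)]
      simp only [← smul_sub]
      exact cc_bound (K := fun t => De (en n) t - D t) (fun R =>
        (((De_cont (en_pos n)).continuousOn.integrableOn_compact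
          (isCompact_closedBall (0 : ℂ) R)).mono_set Metric.ball_subset_closedBall).sub
          (D_int h R)) hM hR hz.le
    · intro z hz
      rw [mem_ball_zero_iff] at hz
      rw [tendsto_iff_norm_sub_tendsto_zero]
      have h1 := (lim_L h (‖z0‖ + 1 + R + 1)).const_mul M
      rw [mul_zero] at h1
      refine squeeze_zero (fun _ => norm_nonneg _) (fun n => ?_) h1
      rw [hsub, hP, ← integral_sub (int_cc (le_cont (en_pos n)).locallyIntegrable hfc hc z)
          (int_cc (L_loc h) hfc hc z)]
      simp only [← smul_sub]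
      exact cc_bound (K := fun t => le (en n) t - L t) (fun R =>
        (((le_cont (en_pos n)).continuousOn.integrableOn_compact
          (isCompact_closedBall (0 : ℂ) R)).mono_set Metric.ball_subset_closedBall).sub
          (h.1 R).2.1) hM hR hz.le
  rw [hpot]
  refine contDiff_const.mul ?_
  push_cast
  refine contDiff_succ_iff_fderiv.2 ⟨fun z => (hder z).differentiableAt, by simp, ?_⟩
  have h2 : fderiv ℝ P = G := funext fun z => (hder z).fderiv
  rw [h2]
  exact hGc

end Pool.Agent.Y168.EL
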